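import Mathlib

namespace Pool.Agent.Results.MP_3faef8_co.InfinitelyManyExceptions

open Finset

variable {V : Type} [Fintype V] [DecidableEq V]

/-- The sum of the labels of the edges at `v`. -/
def vsum (G : SimpleGraph V) [DecidableRel G.Adj] (l : Sym2 V → ℕ) (v : V) : ℕ :=
  ∑ w, if G.Adj v w then l s(v, w) else 0

/-- The number of edges of `G` with label `c`. -/
def nb (G : SimpleGraph V) [DecidableRel G.Adj] (l : Sym2 V → ℕ) (c : ℕ) : ℕ :=
  (G.edgeFinset.filter (fun e => l e = c)).card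

/-- `l` is a `k`-labelling of `G`: every edge has a label in `{1,...,k}`. -/
def IsLabelling (G : SimpleGraph V) (k : ℕ) (l : Sym2 V → ℕ) : Prop :=
  ∀ e ∈ G.edgeSet, 1 ≤ l e ∧ l e ≤ k

/-- `l` is proper: adjacent vertices have distinct sums. -/
def IsProper (G : SimpleGraph V) [DecidableRel G.Adj] (l : Sym2 V → ℕ) : Prop :=
  ∀ u v, G.Adj u v → vsum G l u ≠ vsum G l v

/-- `l` is equitable: any two labels used by `l` are used almost equally often. -/
def IsEquitable (G : SimpleGraph V) [DecidableRel G.Adj] (l : Sym2 V → ℕ) : Prop :=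
  ∀ e ∈ G.edgeSet, ∀ f ∈ G.edgeSet, nb G l (l e) ≤ nb G l (l f) + 1

/-- `G` is nice: no connected component is isomorphic to `K_2`. -/
def Nice (G : SimpleGraph V) : Prop :=
  ∀ c : G.ConnectedComponent, IsEmpty (c.toSimpleGraph ≃g (⊤ : SimpleGraph (Fin 2)))

/-- The disjoint union of `K_4` and `t` copies of `K_3`. -/
def H (t : ℕ) : SimpleGraph (Fin 4 ⊕ Fin t × Fin 3) where
  Adj u v := match u, v with
    | .inl a, .inl b => a ≠ b
    | .inr p, .inr q => p.1 = q.1 ∧ p.2 ≠ q.2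
    | _, _ => False
  symm := ⟨by
    intro u v h
    cases u <;> cases v <;> simp_all [eq_comm]⟩
  loopless := ⟨by
    intro u h
    cases u <;> simp_all⟩

instance (t : ℕ) : DecidableRel (H t).Adj := by
  intro u v
  cases u <;> cases v <;> simp only [H] <;> infer_instance

lemma adj_inl (t : ℕ) (a b : Fin 4) : (H t).Adj (.inl a) (.inl b) ↔ a ≠ b := Iff.rfl
lemma adj_inr (t : ℕ) (p q : Fin t × Fin 3) :
    (H t).Adj (.inr p) (.inr q) ↔ p.1 = q.1 ∧ p.2 ≠ q.2 := Iff.rfl
lemma adj_lr (t : ℕ) (a : Fin 4) (q : Fin t × Fin 3) : ¬ (H t).Adj (.inl a) (.inr q) := fun h => h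
lemma adj_rl (t : ℕ) (a : Fin 4) (q : Fin t × Fin 3) : ¬ (H t).Adj (.inr q) (.inl a) := fun h => h

/-- The six edges of `K_4`. -/
def pa : Fin 6 → Fin 4 := ![0, 0, 0, 1, 1, 2]
def pb : Fin 6 → Fin 4 := ![1, 2, 3, 2, 3, 3]

/-- Enumeration of the edges of `H t`. -/
def E (t : ℕ) : Fin 6 ⊕ Fin t × Fin 3 → Sym2 (Fin 4 ⊕ Fin t × Fin 3)
  | .inl k => s(.inl (pa k), .inl (pb k))
  | .inr (i, z) => s(.inr (i, z + 1), .inr (i, z + 2))

lemma E_inj (t : ℕ) : Function.Injective (E t) := by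
  intro x y h
  rcases x with k | ⟨i, z⟩ <;> rcases y with k' | ⟨i', z'⟩
  · simp only [E, Sym2.eq_iff, Sum.inl.injEq] at h
    congr 1
    revert h k k'
    decide
  · simp [E] at h
  · simp [E] at h
  · simp only [E, Sym2.eq_iff, Sum.inr.injEq, Prod.mk.injEq] at h
    have h1 : i = i' := by tauto
    subst h1
    have h2 : z = z' := by
      have h3 : (z + 1 = z' + 1 ∧ z + 2 = z' + 2) ∨ (z + 1 = z' + 2 ∧ z + 2 = z' + 1) := by tauto
      revert h3
      clear h
      revert z z'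
      decide
    rw [h2]

lemma edge_eq (t : ℕ) : (H t).edgeFinset = univ.map ⟨E t, E_inj t⟩ := by
  ext e
  simp only [SimpleGraph.mem_edgeFinset, mem_map, mem_univ, true_and, Function.Embedding.coeFn_mk]
  constructor
  · induction e using Sym2.ind with
    | _ u v =>
      intro h
      rw [SimpleGraph.mem_edgeSet] at h
      rcases u with a | ⟨i, x⟩ <;> rcases v with b | ⟨j, y⟩
      · rw [adj_inl] at h
        have : ∃ k : Fin 6, (pa k = a ∧ pb k = b) ∨ (pa k = b ∧ pb k = a) := by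
          revert h a b
          decide
        obtain ⟨k, hk⟩ := this
        refine ⟨.inl k, ?_⟩
        simp only [E, Sym2.eq_iff, Sum.inl.injEq]
        exact hk
      · exact absurd h (adj_lr t a _)
      · exact absurd h (adj_rl t b _)
      · rw [adj_inr] at h
        obtain ⟨h1, h2⟩ := h
        simp only at h1 h2
        subst h1
        have : ∃ z : Fin 3, (z + 1 = x ∧ z + 2 = y) ∨ (z + 1 = y ∧ z + 2 = x) := by
          revert h2 x y
          decide
        obtain ⟨z, hz⟩ := this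
        refine ⟨.inr (i, z), ?_⟩
        simp only [E, Sym2.eq_iff, Sum.inr.injEq, Prod.mk.injEq, true_and]
        exact hz
  · rintro ⟨x, rfl⟩
    rcases x with k | ⟨i, z⟩
    · simp only [E, SimpleGraph.mem_edgeSet, adj_inl]
      revert k
      decide
    · simp only [E, SimpleGraph.mem_edgeSet, adj_inr, true_and]
      revert z
      decide

lemma E_mem (t : ℕ) (x) : E t x ∈ (H t).edgeSet := by
  rw [← SimpleGraph.mem_edgeFinset, edge_eq]
  exact mem_map_of_mem _ (mem_univ x)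

lemma nb_eq (t : ℕ) (l : Sym2 (Fin 4 ⊕ Fin t × Fin 3) → ℕ) (c : ℕ) :
    nb (H t) l c = (∑ k : Fin 6, if l (E t (.inl k)) = c then 1 else 0)
      + ∑ i : Fin t, ∑ z : Fin 3, if l (E t (.inr (i, z))) = c then 1 else 0 := by
  unfold nb
  rw [edge_eq, card_filter, sum_map, Fintype.sum_sum_type, Fintype.sum_prod_type]
  rfl

lemma E_a (t : ℕ) (i : Fin t) (x : Fin 3) :
    E t (.inr (i, x + 2)) = s(.inr (i, x), .inr (i, x + 1)) := by
  have h1 : x + 2 + 1 = x := by revert x; decide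
  have h2 : x + 2 + 2 = x + 1 := by revert x; decide
  simp only [E, h1, h2]

lemma E_b (t : ℕ) (i : Fin t) (x : Fin 3) :
    E t (.inr (i, x + 1)) = s(.inr (i, x), .inr (i, x + 2)) := by
  have h1 : x + 1 + 1 = x + 2 := by revert x; decide
  have h2 : x + 1 + 2 = x := by revert x; decide
  simp only [E, h1, h2]
  exact Sym2.eq_swap

lemma vsum_inr (t : ℕ) (l : Sym2 (Fin 4 ⊕ Fin t × Fin 3) → ℕ) (i : Fin t) (x : Fin 3) :
    vsum (H t) l (.inr (i, x)) = l (E t (.inr (i, x + 2))) + l (E t (.inr (i, x + 1))) := by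
  have key : ∀ f : Fin 3 → ℕ, (∑ y : Fin 3, if x ≠ y then f y else 0) = f (x + 1) + f (x + 2) := by
    intro f
    fin_cases x
    · simp [Fin.sum_univ_three]
    · simp only [Fin.sum_univ_three, Fin.isValue]
      have : (1 : Fin 3) + 1 = 2 := rfl
      have h : (1 : Fin 3) + 2 = 0 := rfl
      simp [this, h, add_comm]
    · simp only [Fin.sum_univ_three, Fin.isValue]
      have : (2 : Fin 3) + 1 = 0 := rfl
      have h : (2 : Fin 3) + 2 = 1 := rfl
      simp [this, h]
  rw [E_a, E_b]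
  unfold vsum
  rw [Fintype.sum_sum_type, Fintype.sum_prod_type, sum_eq_single i]
  · simp only [adj_rl, if_false, sum_const_zero, zero_add, adj_inr, true_and]
    exact key (fun y => l s(.inr (i, x), .inr (i, y)))
  · intro j _ hj
    simp [adj_inr, Ne.symm hj]
  · simp

lemma vsum_inl (t : ℕ) (l : Sym2 (Fin 4 ⊕ Fin t × Fin 3) → ℕ) (x : Fin 4) :
    vsum (H t) l (.inl x) = ∑ y : Fin 4, if x ≠ y then l s(.inl x, .inl y) else 0 := by
  unfold vsum
  rw [Fintype.sum_sum_type]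
  simp only [adj_lr, if_false, sum_const_zero, add_zero, adj_inl]

/-- No balanced labelling of `K_4` is proper (finite check, labels `d k + 1`). -/
lemma k4 : ∀ d0 d1 d2 d3 d4 d5 : Fin 3,
    (∀ c : Fin 3, (if d0 = c then 1 else 0) + (if d1 = c then 1 else 0) + (if d2 = c then 1 else 0)
      + (if d3 = c then 1 else 0) + (if d4 = c then 1 else 0) + (if d5 = c then 1 else 0) = 2) →
    (d0.val + d1.val + d2.val = d0.val + d3.val + d4.val ∨
     d0.val + d1.val + d2.val = d1.val + d3.val + d5.val ∨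
     d0.val + d1.val + d2.val = d2.val + d4.val + d5.val ∨
     d0.val + d3.val + d4.val = d1.val + d3.val + d5.val ∨
     d0.val + d3.val + d4.val = d2.val + d4.val + d5.val ∨
     d1.val + d3.val + d5.val = d2.val + d4.val + d5.val) := by
  decide +kernel

lemma not_labelling (t : ℕ) (ht : 1 ≤ t) (l : Sym2 (Fin 4 ⊕ Fin t × Fin 3) → ℕ)
    (h1 : IsLabelling (H t) 3 l) (h2 : IsProper (H t) l) (h3 : IsEquitable (H t) l) : False := by
  -- the triangles use all three labels
  have tri : ∀ i : Fin t, ∀ c, 1 ≤ c → c ≤ 3 →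
      (∑ z : Fin 3, if l (E t (.inr (i, z))) = c then 1 else 0) = 1 := by
    intro i c hc1 hc3
    have a0 := h1 _ (E_mem t (.inr (i, 0)))
    have a1 := h1 _ (E_mem t (.inr (i, 1)))
    have a2 := h1 _ (E_mem t (.inr (i, 2)))
    have s01 := h2 (.inr (i, 0)) (.inr (i, 1)) (by simp [adj_inr])
    have s02 := h2 (.inr (i, 0)) (.inr (i, 2)) (by simp [adj_inr])
    have s12 := h2 (.inr (i, 1)) (.inr (i, 2)) (by simp [adj_inr])
    rw [vsum_inr, vsum_inr] at s01 s02 s12
    have e1 : (0 : Fin 3) + 2 = 2 := rfl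
    have e2 : (0 : Fin 3) + 1 = 1 := rfl
    have e3 : (1 : Fin 3) + 2 = 0 := rfl
    have e4 : (1 : Fin 3) + 1 = 2 := rfl
    have e5 : (2 : Fin 3) + 2 = 1 := rfl
    have e6 : (2 : Fin 3) + 1 = 0 := rfl
    rw [e1, e2, e3, e4] at s01
    rw [e1, e2, e5, e6] at s02
    rw [e3, e4, e5, e6] at s12
    rw [Fin.sum_univ_three]
    generalize l (E t (.inr (i, 0))) = x0 at *
    generalize l (E t (.inr (i, 1))) = x1 at *
    generalize l (E t (.inr (i, 2))) = x2 at *
    split_ifs <;> omega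
  have nbc : ∀ c, 1 ≤ c → c ≤ 3 →
      nb (H t) l c = (∑ k : Fin 6, if l (E t (.inl k)) = c then 1 else 0) + t := by
    intro c hc1 hc3
    rw [nb_eq, sum_congr rfl (fun i _ => tri i c hc1 hc3)]
    simp
  have d0 := h1 _ (E_mem t (.inl 0))
  have d1 := h1 _ (E_mem t (.inl 1))
  have d2 := h1 _ (E_mem t (.inl 2))
  have d3 := h1 _ (E_mem t (.inl 3))
  have d4 := h1 _ (E_mem t (.inl 4))
  have d5 := h1 _ (E_mem t (.inl 5))
  -- every label is used
  have used : ∀ c, 1 ≤ c → c ≤ 3 → ∃ e ∈ (H t).edgeSet, l e = c := by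
    intro c hc1 hc3
    have h := tri ⟨0, ht⟩ c hc1 hc3
    by_contra hcon
    push Not at hcon
    have : (∑ z : Fin 3, if l (E t (.inr (⟨0, ht⟩, z))) = c then 1 else 0) = 0 := by
      apply sum_eq_zero
      intro z _
      rw [if_neg (hcon _ (E_mem t _))]
    omega
  have eq12 : ∀ c c', 1 ≤ c → c ≤ 3 → 1 ≤ c' → c' ≤ 3 → nb (H t) l c ≤ nb (H t) l c' + 1 := by
    intro c c' a b a' b'
    obtain ⟨e, he, rfl⟩ := used c a b
    obtain ⟨f, hf, rfl⟩ := used c' a' b'
    exact h3 e he f hf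
  have n1 := nbc 1 (by norm_num) (by norm_num)
  have n2 := nbc 2 (by norm_num) (by norm_num)
  have n3 := nbc 3 (by norm_num) (by norm_num)
  have q12 := eq12 1 2 (by norm_num) (by norm_num) (by norm_num) (by norm_num)
  have q21 := eq12 2 1 (by norm_num) (by norm_num) (by norm_num) (by norm_num)
  have q13 := eq12 1 3 (by norm_num) (by norm_num) (by norm_num) (by norm_num)
  have q31 := eq12 3 1 (by norm_num) (by norm_num) (by norm_num) (by norm_num)
  have q23 := eq12 2 3 (by norm_num) (by norm_num) (by norm_num) (by norm_num)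
  have q32 := eq12 3 2 (by norm_num) (by norm_num) (by norm_num) (by norm_num)
  rw [n1, n2] at q12 q21
  rw [n1, n3] at q13 q31
  rw [n2, n3] at q23 q32
  simp only [Fin.sum_univ_six] at q12 q21 q13 q31 q23 q32
  have v01 := h2 (.inl 0) (.inl 1) (by simp [adj_inl])
  have v02 := h2 (.inl 0) (.inl 2) (by simp [adj_inl])
  have v03 := h2 (.inl 0) (.inl 3) (by simp [adj_inl])
  have v12 := h2 (.inl 1) (.inl 2) (by simp [adj_inl])
  have v13 := h2 (.inl 1) (.inl 3) (by simp [adj_inl])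
  have v23 := h2 (.inl 2) (.inl 3) (by simp [adj_inl])
  have w0 : vsum (H t) l (.inl 0) = l (E t (.inl 0)) + l (E t (.inl 1)) + l (E t (.inl 2)) := by
    rw [vsum_inl]; simp [Fin.sum_univ_four, E, pa, pb]
  have w1 : vsum (H t) l (.inl 1) = l (E t (.inl 0)) + l (E t (.inl 3)) + l (E t (.inl 4)) := by
    rw [vsum_inl]
    simp [Fin.sum_univ_four, E, pa, pb, Sym2.eq_swap (a := (Sum.inl 1 : Fin 4 ⊕ Fin t × Fin 3)) (b := .inl 0)]
  have w2 : vsum (H t) l (.inl 2) = l (E t (.inl 1)) + l (E t (.inl 3)) + l (E t (.inl 5)) := by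
    rw [vsum_inl]
    simp [Fin.sum_univ_four, E, pa, pb, Sym2.eq_swap (a := (Sum.inl 2 : Fin 4 ⊕ Fin t × Fin 3)) (b := .inl 0),
      Sym2.eq_swap (a := (Sum.inl 2 : Fin 4 ⊕ Fin t × Fin 3)) (b := .inl 1)]
  have w3 : vsum (H t) l (.inl 3) = l (E t (.inl 2)) + l (E t (.inl 4)) + l (E t (.inl 5)) := by
    rw [vsum_inl]
    simp [Fin.sum_univ_four, E, pa, pb, Sym2.eq_swap (a := (Sum.inl 3 : Fin 4 ⊕ Fin t × Fin 3)) (b := .inl 0),
      Sym2.eq_swap (a := (Sum.inl 3 : Fin 4 ⊕ Fin t × Fin 3)) (b := .inl 1),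
      Sym2.eq_swap (a := (Sum.inl 3 : Fin 4 ⊕ Fin t × Fin 3)) (b := .inl 2)]
  rw [w0, w1] at v01
  rw [w0, w2] at v02
  rw [w0, w3] at v03
  rw [w1, w2] at v12
  rw [w1, w3] at v13
  rw [w2, w3] at v23
  clear n1 n2 n3 eq12 used nbc tri w0 w1 w2 w3
  generalize l (E t (.inl 0)) = x0 at *
  generalize l (E t (.inl 1)) = x1 at *
  generalize l (E t (.inl 2)) = x2 at *
  generalize l (E t (.inl 3)) = x3 at *
  generalize l (E t (.inl 4)) = x4 at *
  generalize l (E t (.inl 5)) = x5 at *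
  have o : ∀ x : ℕ, 1 ≤ x → x ≤ 3 →
      (if x = 1 then 1 else 0) + (if x = 2 then 1 else 0) + (if x = 3 then 1 else 0) = 1 := by
    intro x _ _
    split_ifs <;> omega
  have o0 := o x0 d0.1 d0.2
  have o1 := o x1 d1.1 d1.2
  have o2 := o x2 d2.1 d2.2
  have o3 := o x3 d3.1 d3.2
  have o4 := o x4 d4.1 d4.2
  have o5 := o x5 d5.1 d5.2
  have m : ∀ (x : ℕ) (hx : x - 1 < 3) (c : Fin 3), 1 ≤ x →
      ((⟨x - 1, hx⟩ : Fin 3) = c ↔ x = c.val + 1) := by
    intro x hx c h
    rw [Fin.ext_iff]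
    simp only
    omega
  have hk := k4 ⟨x0 - 1, by omega⟩ ⟨x1 - 1, by omega⟩ ⟨x2 - 1, by omega⟩ ⟨x3 - 1, by omega⟩
    ⟨x4 - 1, by omega⟩ ⟨x5 - 1, by omega⟩ (by
      intro c
      simp only [m x0 _ c d0.1, m x1 _ c d1.1, m x2 _ c d2.1, m x3 _ c d3.1, m x4 _ c d4.1,
        m x5 _ c d5.1]
      fin_cases c
      · simp only [Fin.zero_eta, Fin.val_zero, Nat.zero_add]
        omega
      · simp only [Fin.mk_one, Fin.val_one, Nat.reduceAdd]
        omega
      · simp only [Fin.reduceFinMk, Fin.val_two, Nat.reduceAdd]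
        omega)
  simp only at hk
  omega

lemma nice (t : ℕ) : Nice (H t) := by
  intro c
  refine ⟨fun e => ?_⟩
  -- every vertex has two distinct neighbours
  have two : ∀ v, ∃ a b, a ≠ b ∧ (H t).Adj v a ∧ (H t).Adj v b := by
    intro v
    rcases v with x | ⟨i, x⟩
    · refine ⟨.inl (x + 1), .inl (x + 2), ?_, ?_, ?_⟩
      · intro h
        simp only [Sum.inl.injEq] at h
        revert h; revert x; decide
      · rw [adj_inl]; revert x; decide
      · rw [adj_inl]; revert x; decide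
    · refine ⟨.inr (i, x + 1), .inr (i, x + 2), ?_, ?_, ?_⟩
      · intro h
        simp only [Sum.inr.injEq, Prod.mk.injEq, true_and] at h
        revert h; revert x; decide
      · rw [adj_inr]; refine ⟨rfl, ?_⟩; simp only; revert x; decide
      · rw [adj_inr]; refine ⟨rfl, ?_⟩; simp only; revert x; decide
  obtain ⟨v, hv⟩ := c.nonempty_supp
  obtain ⟨a, b, hab, ha, hb⟩ := two v
  have ha' : a ∈ c.supp := by
    rw [SimpleGraph.ConnectedComponent.mem_supp_iff] at hv ⊢
    rw [← hv]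
    exact (SimpleGraph.ConnectedComponent.connectedComponentMk_eq_of_adj ha).symm
  have hb' : b ∈ c.supp := by
    rw [SimpleGraph.ConnectedComponent.mem_supp_iff] at hv ⊢
    rw [← hv]
    exact (SimpleGraph.ConnectedComponent.connectedComponentMk_eq_of_adj hb).symm
  have inj := e.injective
  have n1 : e ⟨v, hv⟩ ≠ e ⟨a, ha'⟩ := fun h => ha.ne (congrArg Subtype.val (inj h))
  have n2 : e ⟨v, hv⟩ ≠ e ⟨b, hb'⟩ := fun h => hb.ne (congrArg Subtype.val (inj h))
  have n3 : e ⟨a, ha'⟩ ≠ e ⟨b, hb'⟩ := fun h => hab (congrArg Subtype.val (inj h))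
  generalize e ⟨v, hv⟩ = p at *
  generalize e ⟨a, ha'⟩ = q at *
  generalize e ⟨b, hb'⟩ = r at *
  revert n1 n2 n3
  clear inj
  revert p q r
  decide

/-- For every `t ≥ 1` the nice graph `K_4 ⊔ t K_3`, which is not isomorphic to `K_4`, has no
equitable proper `3`-labelling; in particular the equitable 1-2-3 conjecture, stated for all nice
graphs other than `K_4`, fails. -/
theorem result :
    (∀ t : ℕ, 1 ≤ t → Nice (H t) ∧ IsEmpty (H t ≃g (⊤ : SimpleGraph (Fin 4))) ∧
      ¬ ∃ l, IsLabelling (H t) 3 l ∧ IsProper (H t) l ∧ IsEquitable (H t) l) ∧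
    ¬ (∀ (V : Type) [Fintype V] [DecidableEq V] (G : SimpleGraph V) [DecidableRel G.Adj],
      Nice G → IsEmpty (G ≃g (⊤ : SimpleGraph (Fin 4))) →
        ∃ l, IsLabelling G 3 l ∧ IsProper G l ∧ IsEquitable G l) := by
  have main : ∀ t : ℕ, 1 ≤ t → Nice (H t) ∧ IsEmpty (H t ≃g (⊤ : SimpleGraph (Fin 4))) ∧
      ¬ ∃ l, IsLabelling (H t) 3 l ∧ IsProper (H t) l ∧ IsEquitable (H t) l := by
    intro t ht
    refine ⟨nice t, ⟨fun e => ?_⟩, ?_⟩
    · have := Fintype.card_congr e.toEquiv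
      simp only [Fintype.card_sum, Fintype.card_fin, Fintype.card_prod] at this
      omega
    · rintro ⟨l, h1, h2, h3⟩
      exact not_labelling t ht l h1 h2 h3
  refine ⟨main, fun h => ?_⟩
  obtain ⟨a, b, c⟩ := main 1 le_rfl
  exact c (h _ (H 1) a b)

end Pool.Agent.Results.MP_3faef8_co.InfinitelyManyExceptions
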